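import Mathlib

set_option autoImplicit false
set_option linter.unusedSectionVars false
set_option linter.deprecated false

/-! The colour-controlled walk function with minimal-index steps, and its basic properties. -/

namespace Pool.Agent.Helper305_Countryman

open Set

/-- values: a point of the short well-order together with a colour, ordered lexicographically -/
abbrev U (V : Type) : Type := Lex (V × Bool)

/-- the value with given index and colour -/
def mkU {V : Type} (i : V) (b : Bool) : U V := toLex (i, b)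

/-- the colour of a value -/
def col {V : Type} (u : U V) : Bool := (ofLex u).2

/-- the index of a value -/
def idx {V : Type} (u : U V) : V := (ofLex u).1

section
variable {V : Type} [LinearOrder V]

@[simp] lemma col_mkU (i : V) (b : Bool) : col (mkU i b) = b := rfl
@[simp] lemma idx_mkU (i : V) (b : Bool) : idx (mkU i b) = i := rfl

lemma mkU_eta (u : U V) : mkU (idx u) (col u) = u := rfl

lemma lt_of_idx_lt {u v : U V} (h : idx u < idx v) : u < v := by
  rw [Prod.Lex.lt_iff]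
  exact Or.inl h

lemma idx_le_of_le {u v : U V} (h : u ≤ v) : idx u ≤ idx v := by
  by_contra hc
  exact absurd (lt_of_idx_lt (not_le.1 hc)) (not_lt.2 h)

lemma mkU_lt {i j : V} (b c : Bool) (h : i < j) : mkU i b < mkU j c := lt_of_idx_lt h

lemma countable_Iic_U (hV : ∀ v : V, (Iic v).Countable) (u : U V) : (Iic u).Countable := by
  have h1 : Iic u ⊆ (fun p : V × Bool => mkU p.1 p.2) '' (Iic (idx u) ×ˢ (univ : Set Bool)) := by
    intro w hw
    exact ⟨(idx w, col w), ⟨idx_le_of_le hw, mem_univ _⟩, rfl⟩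
  exact (((hV (idx u)).prod (to_countable _)).image _).mono h1

end

/-- The data of the construction. -/
structure Dat (W V : Type) [LinearOrder W] [LinearOrder V] where
  g : W → V → W
  m : W → W → V
  k : W → Bool
  g_lt : ∀ β ξ, ξ < β → ∀ i, g β i < β
  le_gm : ∀ β ξ, ξ < β → ξ ≤ g β (m β ξ)
  m_min : ∀ β ξ, ξ < β → ∀ i, i < m β ξ → g β i < ξ
  ctblV : ∀ v : V, (Iic v).Countable

namespace Dat

variable {W V : Type} [LinearOrder W] [WellFoundedLT W] [LinearOrder V] (D : Dat W V)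

/-- the first step of the walk from `β` to `ξ` -/
def nx (β ξ : W) : W := D.g β (D.m β ξ)

lemma nx_lt {β ξ : W} (h : ξ < β) : D.nx β ξ < β := D.g_lt β ξ h _

lemma le_nx {β ξ : W} (h : ξ < β) : ξ ≤ D.nx β ξ := D.le_gm β ξ h

/-- if `ξ ≤ g β i` then `m β ξ ≤ i` -/
lemma m_le_of {β ξ : W} {i : V} (h : ξ < β) (hi : ξ ≤ D.g β i) : D.m β ξ ≤ i := by
  by_contra hc
  exact absurd (D.m_min β ξ h i (not_le.1 hc)) (not_lt.2 hi)

lemma m_mono {β ξ η : W} (h : ξ ≤ η) (hη : η < β) : D.m β ξ ≤ D.m β η :=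
  D.m_le_of (h.trans_lt hη) (h.trans (D.le_gm β η hη))

lemma m_nx {β ξ : W} (h : ξ < β) : D.m β (D.nx β ξ) = D.m β ξ := by
  apply le_antisymm
  · exact D.m_le_of (D.nx_lt h) le_rfl
  · exact D.m_mono (D.le_nx h) (D.nx_lt h)

lemma nx_nx {β ξ : W} (h : ξ < β) : D.nx β (D.nx β ξ) = D.nx β ξ := by
  unfold nx
  have := D.m_nx h
  unfold nx at this
  rw [this]

lemma m_lt_of_nx_lt {β ξ η : W} (hξ : ξ < β) (h : D.nx β ξ < η) (hη : η < β) :
    D.m β ξ < D.m β η := by
  by_contra hc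
  have h1 : D.m β η ≤ D.m β ξ := not_lt.1 hc
  have h2 : ξ ≤ η := (D.le_nx hξ).trans h.le
  have h3 : D.m β ξ = D.m β η := le_antisymm (D.m_mono h2 hη) h1
  have h4 := D.le_gm β η hη
  rw [← h3] at h4
  exact absurd h (not_lt.2 h4)

/-- between `ξ` and its next point, the index does not change -/
lemma m_eq_of_mem {β ξ η : W} (hξ : ξ < β) (h1 : ξ ≤ η) (h2 : η ≤ D.nx β ξ) :
    D.m β η = D.m β ξ := by
  have hη : η < β := h2.trans_lt (D.nx_lt hξ)
  exact le_antisymm (D.m_le_of hη h2) (D.m_mono h1 hη)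

open Classical in
/-- the walk function -/
noncomputable def e (ξ : W) : W → WithBot (U V) :=
  (wellFounded_lt (α := W)).fix (fun β rec =>
    if h : ξ < β ∧ D.nx β ξ < β then
      max ((mkU (D.m β ξ) (D.k β) : U V) : WithBot (U V)) (rec (D.nx β ξ) h.2)
    else ⊥)

lemma e_of_le {ξ β : W} (h : β ≤ ξ) : D.e ξ β = ⊥ := by
  unfold e
  rw [WellFounded.fix_eq, dif_neg]
  exact fun hc => absurd hc.1 (not_lt.2 h)

lemma e_of_lt {ξ β : W} (h : ξ < β) :
    D.e ξ β = max ((mkU (D.m β ξ) (D.k β) : U V) : WithBot (U V)) (D.e ξ (D.nx β ξ)) := by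
  unfold e
  rw [WellFounded.fix_eq, dif_pos ⟨h, D.nx_lt h⟩]

lemma le_e {ξ β : W} (h : ξ < β) :
    ((mkU (D.m β ξ) (D.k β) : U V) : WithBot (U V)) ≤ D.e ξ β := by
  rw [D.e_of_lt h]
  exact le_max_left _ _

lemma bot_lt_e {ξ β : W} (h : ξ < β) : ⊥ < D.e ξ β :=
  lt_of_lt_of_le (WithBot.bot_lt_coe _) (D.le_e h)

lemma e_eq_bot_iff {ξ β : W} : D.e ξ β = ⊥ ↔ β ≤ ξ := by
  constructor
  · intro h
    by_contra hc
    exact absurd h (D.bot_lt_e (not_le.1 hc)).ne'
  · exact D.e_of_le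

/-- E1: the fibres are countable-to-one -/
lemma countable_le (β : W) : ∀ u : WithBot (U V), {ξ | ξ < β ∧ D.e ξ β ≤ u}.Countable := by
  induction β using WellFoundedLT.induction with
  | _ β ih =>
  intro u
  induction u using WithBot.recBotCoe with
  | bot =>
    convert countable_empty
    ext ξ
    simp only [mem_setOf_eq, mem_empty_iff_false, iff_false, not_and]
    intro h1 h2
    exact absurd (D.bot_lt_e h1) (not_lt.2 h2)
  | coe u =>
    by_cases hne : ∃ ξ, ξ < β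
    swap
    · convert countable_empty
      ext ξ
      simp only [mem_setOf_eq, mem_empty_iff_false, iff_false, not_and]
      exact fun h1 => absurd ⟨ξ, h1⟩ hne
    obtain ⟨ξ₀, hξ₀⟩ := hne
    have hsub : {ξ | ξ < β ∧ D.e ξ β ≤ (u : WithBot (U V))} ⊆
        ⋃ i ∈ Iic (idx u), ({ξ | ξ < D.g β i ∧ D.e ξ (D.g β i) ≤ (u : WithBot (U V))} ∪ {D.g β i}) := by
      rintro ξ ⟨h1, h2⟩
      have h3 := (D.le_e h1).trans h2
      rw [WithBot.coe_le_coe] at h3
      have h4 : D.m β ξ ≤ idx u := idx_le_of_le h3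
      simp only [mem_iUnion]
      refine ⟨D.m β ξ, h4, ?_⟩
      rcases (D.le_nx h1).lt_or_eq with h5 | h5
      · left
        refine ⟨h5, ?_⟩
        rw [D.e_of_lt h1] at h2
        exact (le_max_right _ _).trans h2
      · right
        exact h5
    refine Countable.mono hsub ?_
    refine (D.ctblV (idx u)).biUnion fun i _ => ?_
    exact (ih (D.g β i) (D.g_lt β ξ₀ hξ₀ i) u).union (countable_singleton _)

/-- E2: coherence modulo countable sets -/
lemma countable_ne (β : W) : ∀ α, α < β → {ξ | ξ < α ∧ D.e ξ α ≠ D.e ξ β}.Countable := by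
  induction β using WellFoundedLT.induction with
  | _ β ih =>
  intro α hα
  have hsub : {ξ | ξ < α ∧ D.e ξ α ≠ D.e ξ β} ⊆
      ⋃ i ∈ Iic (D.m β α), ({ξ | ξ < D.g β i ∧ D.e ξ (D.g β i) ≤ ((mkU i (D.k β) : U V) : WithBot (U V))}
        ∪ {D.g β i} ∪ {ξ | ξ < α ∧ ξ < D.g β i ∧ D.e ξ α ≠ D.e ξ (D.g β i)}) := by
    rintro ξ ⟨h1, h2⟩
    have h1' : ξ < β := h1.trans hα
    simp only [mem_iUnion]
    refine ⟨D.m β ξ, D.m_mono h1.le hα, ?_⟩
    rcases (D.le_nx h1').lt_or_eq with h5 | h5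
    · by_cases h6 : D.e ξ (D.nx β ξ) ≤ ((mkU (D.m β ξ) (D.k β) : U V) : WithBot (U V))
      · left; left; exact ⟨h5, h6⟩
      · right
        refine ⟨h1, h5, ?_⟩
        rw [D.e_of_lt h1', max_eq_right (not_le.1 h6).le] at h2
        exact h2
    · left; right; exact h5
  refine Countable.mono hsub ?_
  refine (D.ctblV (D.m β α)).biUnion fun i _ => ?_
  refine ((D.countable_le _ _).union (countable_singleton _)).union ?_
  have hc : D.g β i < β := D.g_lt β α hα i
  rcases lt_trichotomy α (D.g β i) with h | h | h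
  · refine (ih (D.g β i) hc α h).mono ?_
    rintro ξ ⟨h1, _, h3⟩
    exact ⟨h1, h3⟩
  · convert countable_empty
    ext ξ
    simp only [mem_setOf_eq, mem_empty_iff_false, iff_false, not_and, not_not]
    intro _ _
    rw [← h]
  · refine (ih α hα (D.g β i) h).mono ?_
    rintro ξ ⟨_, h2, h3⟩
    exact ⟨h2, fun hh => h3 hh.symm⟩

/-- E3: there is no sequence of strict records of alternating colours. -/
lemma no_alternating (β : W) : ∀ (s : ℕ → W) (v : ℕ → U V), StrictMono s → (∀ n, s n < β) →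
    (∀ n, D.e (s n) β = (v n : WithBot (U V))) →
    (∀ n η, s n < η → (∃ m, η ≤ s m) → D.e (s n) β < D.e η β) →
    (∀ n, col (v (n + 1)) ≠ col (v n)) → False := by
  induction β using WellFoundedLT.induction with
  | _ β ih =>
  intro s v hs hsβ hv hrec hcol
  by_cases hA : ∀ n, ∃ m, D.nx β (s n) < s m
  · -- all colours are `k β`
    have h1 : ∀ n, D.nx β (s n) = s n := by
      intro n
      by_contra hne
      have h2 : s n < D.nx β (s n) := lt_of_le_of_ne (D.le_nx (hsβ n)) (Ne.symm hne)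
      obtain ⟨m, hm⟩ := hA n
      have h3 := hrec n _ h2 ⟨m, hm.le⟩
      have h4 : D.e (D.nx β (s n)) β = ((mkU (D.m β (s n)) (D.k β) : U V) : WithBot (U V)) := by
        rw [D.e_of_lt (D.nx_lt (hsβ n)), D.nx_nx (hsβ n), D.m_nx (hsβ n), D.e_of_le le_rfl]
        exact max_eq_left bot_le
      rw [h4] at h3
      exact absurd h3 (not_lt.2 (D.le_e (hsβ n)))
    have h5 : ∀ n, col (v n) = D.k β := by
      intro n
      have h6 := hv n
      rw [D.e_of_lt (hsβ n), h1 n, D.e_of_le le_rfl, max_eq_left bot_le, WithBot.coe_inj] at h6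
      rw [← h6]
      rfl
    exact hcol 0 (by rw [h5, h5])
  · push Not at hA
    obtain ⟨n₀, hn₀⟩ := hA
    have hc : D.nx β (s n₀) < β := D.nx_lt (hsβ n₀)
    have hnx : ∀ η, s n₀ ≤ η → η ≤ D.nx β (s n₀) → D.nx β η = D.nx β (s n₀) := by
      intro η h1 h2
      unfold nx
      rw [D.m_eq_of_mem (hsβ n₀) h1 h2]
    -- values above `s (n₀+1)` are given by `e _ c`
    have hval : ∀ η, s n₀ < η → (∃ m, η ≤ s m) → D.e η β = D.e η (D.nx β (s n₀)) := by
      intro η h1 h2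
      obtain ⟨m, hm⟩ := h2
      have h3 : η ≤ D.nx β (s n₀) := hm.trans (hn₀ m)
      have hηβ : η < β := h3.trans_lt hc
      have h4 := hrec n₀ η h1 ⟨m, hm⟩
      have h5 : ((mkU (D.m β η) (D.k β) : U V) : WithBot (U V)) < D.e η β := by
        rw [D.m_eq_of_mem (hsβ n₀) h1.le h3]
        exact (D.le_e (hsβ n₀)).trans_lt h4
      have h6 := D.e_of_lt hηβ
      rw [hnx η h1.le h3] at h6
      rcases le_total (D.e η (D.nx β (s n₀))) ((mkU (D.m β η) (D.k β) : U V) : WithBot (U V)) with h | h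
      · rw [max_eq_left h] at h6
        rw [h6] at h5
        exact absurd h5 (lt_irrefl _)
      · rw [max_eq_right h] at h6
        exact h6
    have hlt : ∀ n, s n₀ < s (n + (n₀ + 1)) := fun n => hs (by omega)
    refine ih (D.nx β (s n₀)) hc (fun n => s (n + (n₀ + 1))) (fun n => v (n + (n₀ + 1)))
      (fun a b hab => hs (by omega)) (fun n => ?_) (fun n => ?_) (fun n η h1 h2 => ?_) (fun n => ?_)
    · exact (hs (Nat.lt_succ_self _)).trans_le (hn₀ _)
    · rw [← hval _ (hlt n) ⟨_, le_rfl⟩]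
      exact hv _
    · obtain ⟨m, hm⟩ := h2
      rw [← hval _ (hlt n) ⟨_, le_rfl⟩, ← hval η ((hlt n).trans h1) ⟨_, hm⟩]
      exact hrec _ η h1 ⟨_, hm⟩
    · have := hcol (n + (n₀ + 1))
      rw [show n + (n₀ + 1) + 1 = n + 1 + (n₀ + 1) by omega] at this
      exact this

/-- uncountable cofinality (and not minimal) -/
def UC {W : Type} [LinearOrder W] (δ : W) : Prop :=
  (∃ ξ, ξ < δ) ∧ ∀ s : ℕ → W, (∀ n, s n < δ) → ∃ b, b < δ ∧ ∀ n, s n < b

lemma UC.countable {δ : W} (h : UC δ) {A : Set W} (hA : A.Countable) (hAδ : ∀ a ∈ A, a < δ) :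
    ∃ b, b < δ ∧ ∀ a ∈ A, a < b := by
  rcases A.eq_empty_or_nonempty with rfl | hne
  · obtain ⟨ξ, hξ⟩ := h.1
    exact ⟨ξ, hξ, by simp⟩
  · obtain ⟨f, rfl⟩ := hA.exists_eq_range hne
    obtain ⟨b, hb, hb2⟩ := h.2 f (fun n => hAδ _ ⟨n, rfl⟩)
    exact ⟨b, hb, by rintro _ ⟨n, rfl⟩; exact hb2 n⟩

/-- E4: large strict records at a point of uncountable cofinality. -/
lemma exists_record {δ : W} (hδ : UC δ) (ξ₀ : W) (hξ₀ : ξ₀ < δ) (u : WithBot (U V)) :
    ∃ c, ξ₀ < c ∧ c < δ ∧ ∃ v : U V, D.e c δ = (v : WithBot (U V)) ∧ u < v ∧ col v = D.k δ ∧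
      ∀ η, c < η → η < δ → D.e c δ < D.e η δ := by
  have h1 : ∃ ν : V, ∀ i, ν < i → ∀ b, u < ((mkU i b : U V) : WithBot (U V)) := by
    induction u using WithBot.recBotCoe with
    | bot => exact ⟨D.m δ ξ₀, fun i _ b => WithBot.bot_lt_coe _⟩
    | coe u => exact ⟨idx u, fun i hi b => WithBot.coe_lt_coe.2 (lt_of_idx_lt hi)⟩
  obtain ⟨ν, hν⟩ := h1
  have h2 : (insert ξ₀ ((D.g δ) '' (Iic ν))).Countable := ((D.ctblV ν).image _).insert _
  obtain ⟨ξ', hξ', hb⟩ := hδ.countable h2 (by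
    rintro a (rfl | ⟨i, _, rfl⟩)
    · exact hξ₀
    · exact D.g_lt δ ξ₀ hξ₀ i)
  have h3 : ν < D.m δ ξ' := by
    by_contra hc
    have h4 := hb (D.g δ (D.m δ ξ')) (Or.inr ⟨_, not_lt.1 hc, rfl⟩)
    exact absurd h4 (not_lt.2 (D.le_gm δ ξ' hξ'))
  have h5 : D.nx δ ξ' < δ := D.nx_lt hξ'
  have h6 : D.e (D.nx δ ξ') δ = ((mkU (D.m δ ξ') (D.k δ) : U V) : WithBot (U V)) := by
    rw [D.e_of_lt h5, D.nx_nx hξ', D.m_nx hξ', D.e_of_le le_rfl]
    exact max_eq_left bot_le
  refine ⟨D.nx δ ξ', (hb ξ₀ (Or.inl rfl)).trans_le (D.le_nx hξ'), h5,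
    mkU (D.m δ ξ') (D.k δ), h6, hν _ h3 _, rfl, fun η h7 h8 => ?_⟩
  rw [h6]
  refine lt_of_lt_of_le ?_ (D.le_e h8)
  rw [WithBot.coe_lt_coe]
  exact mkU_lt _ _ (D.m_lt_of_nx_lt hξ' h7 h8)

end Dat

end Pool.Agent.Helper305_Countryman
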