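import Pool.Agent.Helper305_Countryman.A

set_option autoImplicit false
set_option linter.unusedSectionVars false
set_option linter.deprecated false

/-! Nodes of the full coherent tree of the walk function, and its lexicographic order. -/

namespace Pool.Agent.Helper305_Countryman

open Set

/-- first difference of two functions on a well-order -/
lemma exists_first_ne {W B : Type} [LinearOrder W] [WellFoundedLT W] {s t : W → B} (h : s ≠ t) :
    ∃ i, (∀ j, j < i → s j = t j) ∧ s i ≠ t i := by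
  obtain ⟨i, hi⟩ := Function.ne_iff.1 h
  have hne : {i | s i ≠ t i}.Nonempty := ⟨i, hi⟩
  refine ⟨wellFounded_lt.min _ hne, fun j hj => ?_, wellFounded_lt.min_mem _ hne⟩
  by_contra hc
  exact wellFounded_lt.not_lt_min {i | s i ≠ t i} hc hj

lemma exists_isLUB_range {W : Type} [LinearOrder W] [WellFoundedLT W] (l : ℕ → W) (b : W)
    (hb : ∀ n, l n ≤ b) : ∃ γ, (∀ n, l n ≤ γ) ∧ ∀ ξ, ξ < γ → ∃ n, ξ < l n := by
  have hne : {b | ∀ n, l n ≤ b}.Nonempty := ⟨b, hb⟩
  refine ⟨wellFounded_lt.min _ hne, wellFounded_lt.min_mem _ hne, fun ξ hξ => ?_⟩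
  by_contra hc
  push Not at hc
  exact wellFounded_lt.not_lt_min {b | ∀ n, l n ≤ b} hc hξ

/-- restriction of a function to a proper initial segment -/
def res {W B : Type} [LinearOrder W] (γ : W) (t : W → WithBot B) : W → WithBot B :=
  fun ξ => if ξ < γ then t ξ else ⊥

lemma res_of_lt {W B : Type} [LinearOrder W] {γ ξ : W} (t : W → WithBot B) (h : ξ < γ) :
    res γ t ξ = t ξ := by
  simp [res, h]

lemma res_of_le {W B : Type} [LinearOrder W] {γ ξ : W} (t : W → WithBot B) (h : γ ≤ ξ) :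
    res γ t ξ = ⊥ := by
  simp [res, not_lt.2 h]

namespace Dat

variable {W V : Type} [LinearOrder W] [WellFoundedLT W] [LinearOrder V] (D : Dat W V)

/-- `t` is a node of length `α` of the coherent tree. -/
structure Node (α : W) (t : W → WithBot (U V)) : Prop where
  bot_iff : ∀ ξ, t ξ = ⊥ ↔ α ≤ ξ
  ctbl : {ξ | ξ < α ∧ t ξ ≠ D.e ξ α}.Countable

variable {D}

lemma Node.ne_bot {α : W} {t : W → WithBot (U V)} (h : D.Node α t) {ξ : W} (hξ : ξ < α) :
    t ξ ≠ ⊥ := fun hc => absurd ((h.bot_iff ξ).1 hc) (not_le.2 hξ)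

lemma Node.eq_bot {α : W} {t : W → WithBot (U V)} (h : D.Node α t) {ξ : W} (hξ : α ≤ ξ) :
    t ξ = ⊥ := (h.bot_iff ξ).2 hξ

lemma Node.unique {α β : W} {t : W → WithBot (U V)} (h : D.Node α t) (h' : D.Node β t) :
    α = β := by
  apply le_antisymm
  · exact (h.bot_iff β).1 (h'.eq_bot le_rfl)
  · exact (h'.bot_iff α).1 (h.eq_bot le_rfl)

lemma node_e (δ : W) : D.Node δ (fun ξ => D.e ξ δ) := by
  refine ⟨fun ξ => D.e_eq_bot_iff, ?_⟩
  convert countable_empty
  ext ξ
  simp

/-- coherence with every longer fibre -/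
lemma Node.ctbl' {α β : W} {t : W → WithBot (U V)} (h : D.Node α t) (hαβ : α ≤ β) :
    {ξ | ξ < α ∧ t ξ ≠ D.e ξ β}.Countable := by
  rcases hαβ.lt_or_eq with h1 | rfl
  · refine (h.ctbl.union (D.countable_ne β α h1)).mono ?_
    rintro ξ ⟨h2, h3⟩
    by_cases h4 : t ξ = D.e ξ α
    · right
      exact ⟨h2, fun h5 => h3 (h4.trans h5)⟩
    · left
      exact ⟨h2, h4⟩
  · exact h.ctbl

lemma Node.res {α γ : W} {t : W → WithBot (U V)} (h : D.Node α t) (hγ : γ ≤ α) :
    D.Node γ (res γ t) := by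
  refine ⟨fun ξ => ?_, ?_⟩
  · rcases lt_or_ge ξ γ with h1 | h1
    · rw [res_of_lt t h1]
      exact iff_of_false (h.ne_bot (h1.trans_le hγ)) (not_le.2 h1)
    · exact iff_of_true (res_of_le t h1) h1
  · refine (h.ctbl.union (D.node_e γ |>.ctbl' hγ)).mono ?_
    rintro ξ ⟨h1, h2⟩
    rw [res_of_lt t h1] at h2
    by_cases h4 : t ξ = D.e ξ α
    · right
      refine ⟨h1, fun h5 => h2 ?_⟩
      rw [h4]
      exact h5.symm
    · left
      exact ⟨h1.trans_le hγ, h4⟩

/-- nodes are countable-to-one -/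
lemma Node.countable_le {α : W} {t : W → WithBot (U V)} (h : D.Node α t) (u : WithBot (U V)) :
    {ξ | ξ < α ∧ t ξ ≤ u}.Countable := by
  refine (h.ctbl.union (D.countable_le α u)).mono ?_
  rintro ξ ⟨h1, h2⟩
  by_cases h4 : t ξ = D.e ξ α
  · right
    rw [h4] at h2
    exact ⟨h1, h2⟩
  · left
    exact ⟨h1, h4⟩

/-- two nodes differ at countably many common places only -/
lemma Node.countable_ne {α β : W} {s t : W → WithBot (U V)} (hs : D.Node α s) (ht : D.Node β t) :
    {ξ | ξ < α ∧ ξ < β ∧ s ξ ≠ t ξ}.Countable := by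
  refine ((hs.ctbl' (le_max_left α β)).union (ht.ctbl' (le_max_right α β))).mono ?_
  rintro ξ ⟨h1, h2, h3⟩
  by_cases h4 : s ξ = D.e ξ (max α β)
  · right
    refine ⟨h2, fun h5 => h3 (h4.trans h5.symm)⟩
  · left
    exact ⟨h1, h4⟩

/-- closure under unions of increasing sequences -/
lemma exists_union {l : ℕ → W} {t : ℕ → W → WithBot (U V)} (hl : StrictMono l)
    (ht : ∀ n, D.Node (l n) (t n)) (hext : ∀ n ξ, ξ < l n → t (n + 1) ξ = t n ξ)
    {γ : W} (hγ1 : ∀ n, l n ≤ γ) (hγ2 : ∀ ξ, ξ < γ → ∃ n, ξ < l n) :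
    ∃ z, D.Node γ z ∧ ∀ n ξ, ξ < l n → z ξ = t n ξ := by
  classical
  have hext' : ∀ n k ξ, ξ < l n → t (n + k) ξ = t n ξ := by
    intro n k ξ hξ
    induction k with
    | zero => rfl
    | succ k ih =>
      rw [← ih, ← add_assoc]
      exact hext _ _ (hξ.trans_le (hl.monotone (Nat.le_add_right _ _)))
  have hext2 : ∀ n m ξ, ξ < l n → ξ < l m → t n ξ = t m ξ := by
    intro n m ξ h1 h2
    rcases le_total n m with h | h
    · obtain ⟨k, rfl⟩ := Nat.exists_eq_add_of_le h
      exact (hext' n k ξ h1).symm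
    · obtain ⟨k, rfl⟩ := Nat.exists_eq_add_of_le h
      exact hext' m k ξ h2
  let z : W → WithBot (U V) := fun ξ => if h : ∃ n, ξ < l n then t h.choose ξ else ⊥
  have hz : ∀ n ξ, ξ < l n → z ξ = t n ξ := by
    intro n ξ h
    have h' : ∃ n, ξ < l n := ⟨n, h⟩
    simp only [z, dif_pos h']
    exact hext2 _ _ _ h'.choose_spec h
  refine ⟨z, ⟨fun ξ => ?_, ?_⟩, hz⟩
  · rcases lt_or_ge ξ γ with h1 | h1
    · obtain ⟨n, hn⟩ := hγ2 ξ h1
      rw [hz n ξ hn]
      exact iff_of_false ((ht n).ne_bot hn) (not_le.2 h1)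
    · refine iff_of_true ?_ h1
      have : ¬ ∃ n, ξ < l n := by
        push Not
        exact fun n => (hγ1 n).trans h1
      simp only [z, dif_neg this]
  · refine (countable_iUnion fun n => (ht n).ctbl' (hγ1 n)).mono ?_
    rintro ξ ⟨h1, h2⟩
    obtain ⟨n, hn⟩ := hγ2 ξ h1
    rw [hz n ξ hn] at h2
    exact mem_iUnion.2 ⟨n, hn, h2⟩

variable (D)

/-- the line: all nodes, ordered lexicographically -/
def Line : Type := {t : Lex (W → WithBot (U V)) // ∃ α, D.Node α (ofLex t)}

noncomputable instance : LinearOrder D.Line :=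
  inferInstanceAs (LinearOrder {t : Lex (W → WithBot (U V)) // ∃ α, D.Node α (ofLex t)})

variable {D}

/-- the underlying function -/
def Line.fn (x : D.Line) : W → WithBot (U V) := ofLex x.1

/-- the length -/
noncomputable def Line.lh (x : D.Line) : W := x.2.choose

lemma Line.node (x : D.Line) : D.Node x.lh x.fn := x.2.choose_spec

/-- the element of the line given by a node -/
def mkL {α : W} {t : W → WithBot (U V)} (h : D.Node α t) : D.Line := ⟨toLex t, α, h⟩

@[simp] lemma fn_mkL {α : W} {t : W → WithBot (U V)} (h : D.Node α t) : (mkL h).fn = t := rfl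

@[simp] lemma lh_mkL {α : W} {t : W → WithBot (U V)} (h : D.Node α t) : (mkL h).lh = α :=
  (mkL h).node.unique h

lemma Line.ext {x y : D.Line} (h : x.fn = y.fn) : x = y := Subtype.ext h

lemma Line.lt_iff {x y : D.Line} :
    x < y ↔ ∃ i, (∀ j, j < i → x.fn j = y.fn j) ∧ x.fn i < y.fn i := Iff.rfl

/-- restriction to a smaller length -/
noncomputable def Line.cut (x : D.Line) (γ : W) (h : γ ≤ x.lh) : D.Line := mkL (x.node.res h)

@[simp] lemma Line.lh_cut (x : D.Line) (γ : W) (h : γ ≤ x.lh) : (x.cut γ h).lh = γ := lh_mkL _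

lemma Line.fn_cut (x : D.Line) (γ : W) (h : γ ≤ x.lh) {ξ : W} (hξ : ξ < γ) :
    (x.cut γ h).fn ξ = x.fn ξ := res_of_lt _ hξ

variable (D)

/-- the fibre at `δ` as an element of the line -/
noncomputable def fib (δ : W) : D.Line := mkL (D.node_e δ)

@[simp] lemma lh_fib (δ : W) : (D.fib δ).lh = δ := lh_mkL _

@[simp] lemma fn_fib (δ : W) (ξ : W) : (D.fib δ).fn ξ = D.e ξ δ := rfl

lemma fib_injective : Function.Injective D.fib := by
  intro a b h
  rw [← D.lh_fib a, h, D.lh_fib b]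

end Dat

end Pool.Agent.Helper305_Countryman
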