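import Pool.Agent.Helper305_Countryman.B

set_option autoImplicit false
set_option linter.unusedSectionVars false
set_option linter.deprecated false

/-! Counting nodes under the continuum hypothesis, and the Countryman property. -/

namespace Pool.Agent.Helper305_Countryman

open Set Cardinal

lemma mk_seq_le (hCH : (𝔠 : Cardinal.{0}) = ℵ₁) {X : Type} (h : #X ≤ ℵ₁) : #(ℕ → X) ≤ ℵ₁ := by
  rw [← Cardinal.power_def, Cardinal.mk_nat]
  calc #X ^ ℵ₀ ≤ ℵ₁ ^ ℵ₀ := Cardinal.power_le_power_right h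
    _ = 𝔠 ^ ℵ₀ := by rw [hCH]
    _ = 𝔠 := Cardinal.continuum_power_aleph0
    _ = ℵ₁ := hCH

lemma mk_prod_le {X Y : Type} (h : #X ≤ ℵ₁) (h' : #Y ≤ ℵ₁) : #(X × Y) ≤ ℵ₁ := by
  rw [← Cardinal.mul_def]
  calc #X * #Y ≤ ℵ₁ * ℵ₁ := mul_le_mul' h h'
    _ = ℵ₁ := Cardinal.mul_eq_self (Cardinal.aleph0_le_aleph 1)

lemma mk_U_le {V : Type} (h : #V ≤ ℵ₁) : #(U V) ≤ ℵ₁ := by
  have : #(U V) = #(V × Bool) := rfl
  rw [this]
  refine mk_prod_le h ?_
  rw [Cardinal.mk_bool]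
  exact (Cardinal.natCast_lt_aleph0 (n := 2)).le.trans (Cardinal.aleph0_le_aleph 1)

lemma mk_withBot_le {X : Type} (h : #X ≤ ℵ₁) : #(WithBot X) ≤ ℵ₁ := by
  have : #(WithBot X) = #(Option X) := rfl
  rw [this, Cardinal.mk_option]
  exact Cardinal.add_le_of_le (Cardinal.aleph0_le_aleph 1) h
    ((Cardinal.one_lt_aleph0).le.trans (Cardinal.aleph0_le_aleph 1))

namespace Dat

variable {W V : Type} [LinearOrder W] [WellFoundedLT W] [LinearOrder V] (D : Dat W V)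

open Classical in
/-- the nodes of length at most `ζ` are few -/
lemma mk_nodes_le (hCH : (𝔠 : Cardinal.{0}) = ℵ₁) (hV : #V ≤ ℵ₁) (ζ : W) (hζ : #(Iic ζ) ≤ ℵ₁) :
    #{t : W → WithBot (U V) | ∃ α, α ≤ ζ ∧ D.Node α t} ≤ ℵ₁ := by
  let F : Iic ζ × (ℕ → Iic ζ) × (ℕ → WithBot (U V)) → (W → WithBot (U V)) :=
    fun q ξ => if h : ∃ n, ((q.2.1 n : Iic ζ) : W) = ξ then q.2.2 h.choose else D.e ξ q.1
  have hsub : {t : W → WithBot (U V) | ∃ α, α ≤ ζ ∧ D.Node α t} ⊆ range F := by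
    rintro t ⟨α, hα, ht⟩
    let A : Set (Iic ζ) := insert ⟨α, hα⟩ ((Subtype.val : Iic ζ → W) ⁻¹' {ξ | ξ < α ∧ t ξ ≠ D.e ξ α})
    have hA : A.Countable := (ht.ctbl.preimage Subtype.val_injective).insert _
    obtain ⟨p, hp⟩ := hA.exists_eq_range ⟨⟨α, hα⟩, Or.inl rfl⟩
    refine ⟨(⟨α, hα⟩, p, fun n => t (p n)), ?_⟩
    funext ξ
    by_cases h : ∃ n, ((p n : Iic ζ) : W) = ξ
    · have h2 : F (⟨α, hα⟩, p, fun n => t (p n)) ξ = t (p h.choose) := dif_pos h
      rw [h2, h.choose_spec]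
    · have h2 : F (⟨α, hα⟩, p, fun n => t (p n)) ξ = D.e ξ α := dif_neg h
      rw [h2]
      rcases lt_or_ge ξ α with h3 | h3
      · by_contra hne
        have h4 : (⟨ξ, h3.le.trans hα⟩ : Iic ζ) ∈ A := Or.inr ⟨h3, fun h5 => hne h5.symm⟩
        rw [hp] at h4
        obtain ⟨n, hn⟩ := h4
        exact h ⟨n, by rw [hn]⟩
      · rw [D.e_of_le h3, ht.eq_bot h3]
  refine (mk_le_mk_of_subset hsub).trans (mk_range_le.trans ?_)
  exact mk_prod_le hζ (mk_prod_le (mk_seq_le hCH hζ) (mk_seq_le hCH (mk_withBot_le (mk_U_le hV))))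

/-- the elements of the line of length at most `ζ` are few -/
lemma mk_line_le (hCH : (𝔠 : Cardinal.{0}) = ℵ₁) (hV : #V ≤ ℵ₁) (ζ : W) (hζ : #(Iic ζ) ≤ ℵ₁) :
    #{x : D.Line | x.lh ≤ ζ} ≤ ℵ₁ := by
  refine le_trans ?_ (D.mk_nodes_le hCH hV ζ hζ)
  refine mk_le_of_injective (f := fun x : {x : D.Line | x.lh ≤ ζ} =>
    (⟨x.1.fn, x.1.lh, x.2, x.1.node⟩ : {t : W → WithBot (U V) | ∃ α, α ≤ ζ ∧ D.Node α t})) ?_
  intro x y hxy
  have h : x.1.fn = y.1.fn := by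
    simp only [Subtype.mk.injEq] at hxy
    exact hxy
  exact Subtype.ext (Line.ext h)

/-- countable sets of values are bounded -/
lemma exists_bound_U [Nonempty V] (bddV : ∀ s : ℕ → V, ∃ b, ∀ n, s n < b)
    {A : Set (WithBot (U V))} (hA : A.Countable) :
    ∃ v : U V, ∀ a ∈ A, a ≤ (v : WithBot (U V)) := by
  obtain ⟨v0⟩ := ‹Nonempty V›
  obtain ⟨f, hf⟩ := (hA.insert ⊥).exists_eq_range ⟨⊥, Or.inl rfl⟩
  obtain ⟨b, hb⟩ := bddV (fun n => idx ((f n).unbotD (mkU v0 false)))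
  refine ⟨mkU b false, fun a ha => ?_⟩
  have h1 : a ∈ range f := by
    rw [← hf]
    exact Or.inr ha
  obtain ⟨n, rfl⟩ := h1
  have h2 := hb n
  generalize f n = w at h2
  induction w using WithBot.recBotCoe with
  | bot => exact bot_le
  | coe u => exact (WithBot.coe_lt_coe.2 (lt_of_idx_lt h2)).le

variable {D}

/-- The code of a pair of elements of the line. -/
structure Code (x y : D.Line) (v : U V) (ε : ℕ → W) : Prop where
  le_min : ∀ n, ε n ≤ min x.lh y.lh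
  mem_iff : ∀ ξ, ξ ≤ min x.lh y.lh →
    ((∃ n, ε n = ξ) ↔ ¬ (x.fn ξ = y.fn ξ ∧ (v : WithBot (U V)) < x.fn ξ))
  le_v : ∀ n, x.fn (ε n) ≤ (v : WithBot (U V)) ∧ y.fn (ε n) ≤ (v : WithBot (U V))

lemma exists_code [Nonempty V] (bddV : ∀ s : ℕ → V, ∃ b, ∀ n, s n < b) (x y : D.Line) :
    ∃ v ε, Code x y v ε := by
  have hD : {ξ | ξ < x.lh ∧ ξ < y.lh ∧ x.fn ξ ≠ y.fn ξ}.Countable := x.node.countable_ne y.node
  have hD2 := hD.insert (min x.lh y.lh)
  obtain ⟨v, hv⟩ := exists_bound_U bddV ((hD2.image x.fn).union (hD2.image y.fn))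
  have hN : {ξ | ξ ≤ min x.lh y.lh ∧ ¬ (x.fn ξ = y.fn ξ ∧ (v : WithBot (U V)) < x.fn ξ)}.Countable := by
    refine (hD2.union (x.node.countable_le (v : WithBot (U V)))).mono ?_
    rintro ξ ⟨h1, h2⟩
    rcases h1.lt_or_eq with h3 | h3
    · have h4 := lt_min_iff.1 h3
      by_cases h5 : x.fn ξ = y.fn ξ
      · right
        refine ⟨h4.1, not_lt.1 fun h6 => h2 ⟨h5, h6⟩⟩
      · left; right
        exact ⟨h4.1, h4.2, h5⟩
    · left; left; exact h3
  have hmem : min x.lh y.lh ∈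
      {ξ | ξ ≤ min x.lh y.lh ∧ ¬ (x.fn ξ = y.fn ξ ∧ (v : WithBot (U V)) < x.fn ξ)} := by
    refine ⟨le_rfl, ?_⟩
    rintro ⟨h1, h2⟩
    rcases le_total x.lh y.lh with h | h
    · rw [min_eq_left h, x.node.eq_bot le_rfl] at h2
      exact absurd h2 not_lt_bot
    · rw [h1, min_eq_right h, y.node.eq_bot le_rfl] at h2
      exact absurd h2 not_lt_bot
  obtain ⟨ε, hε⟩ := hN.exists_eq_range ⟨_, hmem⟩
  refine ⟨v, ε, ⟨fun n => ?_, fun ξ hξ => ?_, fun n => ?_⟩⟩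
  · have : ε n ∈ range ε := ⟨n, rfl⟩
    rw [← hε] at this
    exact this.1
  · constructor
    · rintro ⟨n, rfl⟩
      have : ε n ∈ range ε := ⟨n, rfl⟩
      rw [← hε] at this
      exact this.2
    · intro h
      have h2 : ξ ∈ {ξ | ξ ≤ min x.lh y.lh ∧
        ¬ (x.fn ξ = y.fn ξ ∧ (v : WithBot (U V)) < x.fn ξ)} := ⟨hξ, h⟩
      rw [hε] at h2
      exact h2
  · have h1 : ε n ∈ range ε := ⟨n, rfl⟩
    rw [← hε] at h1
    obtain ⟨h2, h3⟩ := h1
    by_cases h4 : ε n ∈ insert (min x.lh y.lh) {ξ | ξ < x.lh ∧ ξ < y.lh ∧ x.fn ξ ≠ y.fn ξ}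
    · exact ⟨hv _ (Or.inl ⟨_, h4, rfl⟩), hv _ (Or.inr ⟨_, h4, rfl⟩)⟩
    · have h5 : ε n < min x.lh y.lh := lt_of_le_of_ne h2 fun h => h4 (Or.inl h)
      have h6 := lt_min_iff.1 h5
      have h7 : x.fn (ε n) = y.fn (ε n) := by
        by_contra h8
        exact h4 (Or.inr ⟨h6.1, h6.2, h8⟩)
      have h8 : x.fn (ε n) ≤ (v : WithBot (U V)) := not_lt.1 fun h9 => h3 ⟨h7, h9⟩
      exact ⟨h8, h7 ▸ h8⟩

lemma eq_of_agree {x x' : D.Line} {ξ : W} (h : ∀ j, j < ξ → x.fn j = x'.fn j) (hl : x.lh < ξ) :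
    x = x' := by
  have h1 : x'.fn x.lh = ⊥ := by
    rw [← h _ hl]
    exact x.node.eq_bot le_rfl
  have h2 : x'.lh ≤ x.lh := (x'.node.bot_iff _).1 h1
  apply Line.ext
  funext η
  rcases lt_or_ge η ξ with h3 | h3
  · exact h η h3
  · rw [x.node.eq_bot (hl.le.trans h3), x'.node.eq_bot (h2.trans (hl.le.trans h3))]

/-- two pairs with the same code are comparable -/
lemma comparable {x y x' y' : D.Line} {v : U V} {ε ε' : ℕ → W} (h : Code x y v ε)
    (h' : Code x' y' v ε') (hord : ∀ a b, ε a < ε b ↔ ε' a < ε' b)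
    (hx : ∀ a, x.fn (ε a) = x'.fn (ε' a)) (hy : ∀ a, y.fn (ε a) = y'.fn (ε' a)) :
    (x ≤ x' ∧ y ≤ y') ∨ (x' ≤ x ∧ y' ≤ y) := by
  by_cases hxx : x = x'
  · subst hxx
    rcases le_total y y' with h1 | h1
    · exact Or.inl ⟨le_rfl, h1⟩
    · exact Or.inr ⟨le_rfl, h1⟩
  by_cases hyy : y = y'
  · subst hyy
    rcases le_total x x' with h1 | h1
    · exact Or.inl ⟨h1, le_rfl⟩
    · exact Or.inr ⟨h1, le_rfl⟩
  have hne : (fun ξ => (x.fn ξ, y.fn ξ)) ≠ (fun ξ => (x'.fn ξ, y'.fn ξ)) := by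
    intro hc
    apply hxx
    apply Line.ext
    funext ξ
    exact (Prod.ext_iff.1 (congrFun hc ξ)).1
  obtain ⟨ξ, hξ1, hξ2⟩ := exists_first_ne hne
  have hX : ∀ j, j < ξ → x.fn j = x'.fn j := fun j hj => (Prod.ext_iff.1 (hξ1 j hj)).1
  have hY : ∀ j, j < ξ → y.fn j = y'.fn j := fun j hj => (Prod.ext_iff.1 (hξ1 j hj)).2
  have hμ : ξ ≤ min x.lh y.lh := by
    refine le_min ?_ ?_
    · exact not_lt.1 fun hc => hxx (eq_of_agree hX hc)
    · exact not_lt.1 fun hc => hyy (eq_of_agree hY hc)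
  have hμ' : ξ ≤ min x'.lh y'.lh := by
    refine le_min ?_ ?_
    · exact not_lt.1 fun hc => hxx (eq_of_agree (fun j hj => (hX j hj).symm) hc).symm
    · exact not_lt.1 fun hc => hyy (eq_of_agree (fun j hj => (hY j hj).symm) hc).symm
  have key : ∀ {z z' : D.Line}, (∀ j, j < ξ → z.fn j = z'.fn j) → z.fn ξ < z'.fn ξ → z ≤ z' :=
    fun h1 h2 => le_of_lt (Line.lt_iff.2 ⟨ξ, h1, h2⟩)
  by_cases hT : x.fn ξ = y.fn ξ ∧ (v : WithBot (U V)) < x.fn ξ
  · by_cases hT' : x'.fn ξ = y'.fn ξ ∧ (v : WithBot (U V)) < x'.fn ξ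
    · -- both trivial
      have h1 : x.fn ξ ≠ x'.fn ξ := by
        intro hc
        apply hξ2
        simp only [Prod.mk.injEq]
        exact ⟨hc, by rw [← hT.1, hc, hT'.1]⟩
      rcases lt_or_gt_of_ne h1 with h2 | h2
      · exact Or.inl ⟨key hX h2, key hY (by rw [← hT.1, ← hT'.1]; exact h2)⟩
      · exact Or.inr ⟨key (fun j hj => (hX j hj).symm) h2,
          key (fun j hj => (hY j hj).symm) (by rw [← hT.1, ← hT'.1]; exact h2)⟩
    · obtain ⟨n, hn⟩ := (h'.mem_iff ξ hμ').2 hT'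
      obtain ⟨h1, h2⟩ := h'.le_v n
      rw [hn] at h1 h2
      exact Or.inr ⟨key (fun j hj => (hX j hj).symm) (h1.trans_lt hT.2),
        key (fun j hj => (hY j hj).symm) (h2.trans_lt (by rw [← hT.1]; exact hT.2))⟩
  · obtain ⟨n, hn⟩ := (h.mem_iff ξ hμ).2 hT
    by_cases hT' : x'.fn ξ = y'.fn ξ ∧ (v : WithBot (U V)) < x'.fn ξ
    · obtain ⟨h1, h2⟩ := h.le_v n
      rw [hn] at h1 h2
      exact Or.inl ⟨key hX (h1.trans_lt hT'.2),
        key hY (h2.trans_lt (by rw [← hT'.1]; exact hT'.2))⟩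
    · -- both nontrivial: impossible
      exfalso
      obtain ⟨n', hn'⟩ := (h'.mem_iff ξ hμ').2 hT'
      -- transfer of membership
      have htr : ∀ η, η ≤ ξ → ((∃ a, ε a = η) ↔ ∃ a, ε' a = η) := by
        intro η hη
        rcases hη.lt_or_eq with h1 | h1
        · rw [h.mem_iff η (h1.le.trans hμ), h'.mem_iff η (h1.le.trans hμ'), hX η h1, hY η h1]
        · subst h1
          exact iff_of_true ⟨n, hn⟩ ⟨n', hn'⟩
      have hinj : ∀ a b, ε a = ε b → ε' a = ε' b := by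
        intro a b hab
        rcases lt_trichotomy (ε' a) (ε' b) with h1 | h1 | h1
        · exact absurd hab ((hord a b).2 h1).ne
        · exact h1
        · exact absurd hab.symm ((hord b a).2 h1).ne
      have hid : ∀ η, η ≤ ξ → ∀ a, ε a = η → ε' a = η := by
        intro η
        induction η using WellFoundedLT.induction with
        | _ η ih =>
        intro hη a ha
        rcases lt_trichotomy (ε' a) η with h1 | h1 | h1
        · obtain ⟨b, hb⟩ := (htr (ε' a) (h1.le.trans hη)).2 ⟨a, rfl⟩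
          have h2 := ih (ε' a) h1 (h1.le.trans hη) b hb
          have h3 : ε b < ε a := by rw [hb, ha]; exact h1
          have h4 := (hord b a).1 h3
          rw [h2] at h4
          exact absurd h4 (lt_irrefl _)
        · exact h1
        · obtain ⟨b, hb⟩ := (htr η hη).1 ⟨a, ha⟩
          have h2 : ε' b < ε' a := by rw [hb]; exact h1
          have h3 := (hord b a).2 h2
          rw [ha] at h3
          have h4 := ih (ε b) h3 (h3.le.trans hη) b rfl
          rw [hb] at h4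
          exact absurd h3 (by rw [← h4]; exact lt_irrefl _)
      have h1 := hid ξ le_rfl n hn
      apply hξ2
      simp only [Prod.mk.injEq]
      constructor
      · rw [← hn, hx n, h1, hn]
      · rw [← hn, hy n, h1, hn]

variable (D)

/-- The line is Countryman, one cardinal up. -/
lemma countryman [Nonempty V] (hCH : (𝔠 : Cardinal.{0}) = ℵ₁) (hV : #V = ℵ₁)
    (bddV : ∀ s : ℕ → V, ∃ b, ∀ n, s n < b) :
    ∃ (ι : Type) (C : ι → Set (D.Line × D.Line)), #ι = ℵ₁ ∧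
      (∀ i, IsChain (· ≤ ·) (C i)) ∧ ⋃ i, C i = Set.univ := by
  let K : Type := U V × (Set (ℕ × ℕ)) × (ℕ → WithBot (U V)) × (ℕ → WithBot (U V))
  have hU : #(ℕ → WithBot (U V)) ≤ ℵ₁ := mk_seq_le hCH (mk_withBot_le (mk_U_le hV.le))
  have hP : #(Set (ℕ × ℕ)) ≤ ℵ₁ := by
    rw [Cardinal.mk_set, ← hCH]
    simp
  have hK : #K ≤ #V := by
    rw [hV]
    exact mk_prod_le (mk_U_le hV.le) (mk_prod_le hP (mk_prod_le hU hU))
  obtain ⟨emb⟩ := hK
  have hcode := fun p : D.Line × D.Line => exists_code bddV p.1 p.2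
  choose v ε hc using hcode
  let c : D.Line × D.Line → K := fun p =>
    (v p, {ab | ε p ab.1 < ε p ab.2}, fun n => p.1.fn (ε p n), fun n => p.2.fn (ε p n))
  refine ⟨V, fun i => {p | emb (c p) = i}, hV, fun i => ?_, ?_⟩
  · intro p hp q hq _
    have h1 : c p = c q := emb.injective (hp.trans hq.symm)
    have h2 : v p = v q := congrArg Prod.fst h1
    have h3 : {ab : ℕ × ℕ | ε p ab.1 < ε p ab.2} = {ab | ε q ab.1 < ε q ab.2} :=
      congrArg (fun z : K => z.2.1) h1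
    have h4 : (fun n => p.1.fn (ε p n)) = fun n => q.1.fn (ε q n) :=
      congrArg (fun z : K => z.2.2.1) h1
    have h5 : (fun n => p.2.fn (ε p n)) = fun n => q.2.fn (ε q n) :=
      congrArg (fun z : K => z.2.2.2) h1
    have h6 := hc q
    rw [← h2] at h6
    have h7 := comparable (hc p) h6 (fun a b => ?_) (fun a => congrFun h4 a)
      (fun a => congrFun h5 a)
    · rcases h7 with h8 | h8
      · exact Or.inl h8
      · exact Or.inr h8
    · have h8 := Set.ext_iff.1 h3 (a, b)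
      exact h8
  · ext p
    simp

end Dat

end Pool.Agent.Helper305_Countryman
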