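import Pool.Agent.Helper305_Countryman.C

set_option autoImplicit false
set_option linter.unusedSectionVars false
set_option linter.deprecated false

/-! The line does not embed into the set of fibres. -/

namespace Pool.Agent.Helper305_Countryman

open Set Cardinal

namespace Dat

variable {W V : Type} [LinearOrder W] [WellFoundedLT W] [LinearOrder V]

/-- The hypotheses on the data used for the main argument. -/
structure Hyp (D : Dat W V) : Prop where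
  ch : (𝔠 : Cardinal.{0}) = ℵ₁
  mkV : #V = ℵ₁
  mkW : ∀ ζ : W, #(Iic ζ) ≤ ℵ₁
  bddW : ∀ {ι : Type} (f : ι → W), #ι ≤ ℵ₁ → ∃ b, ∀ i, f i < b
  stat : ∀ (b : Bool) (f : W → W), ∃ δ, D.k δ = b ∧ UC δ ∧ ∀ ξ, ξ < δ → f ξ < δ

variable {D : Dat W V}

lemma Hyp.exists_gt_max (H : Hyp D) (a b c : W) : ∃ d, a < d ∧ b < d ∧ c < d := by
  obtain ⟨d, hd⟩ := H.bddW (fun _ : Unit => max a (max b c)) (by
    rw [Cardinal.mk_unit]
    exact (Cardinal.one_lt_aleph0).le.trans (Cardinal.aleph0_le_aleph 1))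
  have := hd ()
  simp only [max_lt_iff] at this
  exact ⟨d, this.1, this.2.1, this.2.2⟩

/-- an uncountable set has an uncountable bounded part -/
lemma Hyp.exists_uncountable_Iio (H : Hyp D) {A : Set W} (hA : ¬ A.Countable) :
    ∃ b, ¬ (A ∩ Iio b).Countable := by
  have h1 : ℵ₁ ≤ #A := by
    rw [← not_lt, ← Cardinal.countable_iff_lt_aleph_one]
    exact hA
  obtain ⟨B, hB1, hB2⟩ := Cardinal.le_mk_iff_exists_subset.1 h1
  obtain ⟨b, hb⟩ := H.bddW (fun i : B => i.1) hB2.le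
  refine ⟨b, fun hc => ?_⟩
  have h0 : B ⊆ A ∩ Iio b := fun x hx => ⟨hB1 hx, hb (⟨x, hx⟩ : B)⟩
  have h2 : B.Countable := hc.mono h0
  rw [Cardinal.countable_iff_lt_aleph_one, hB2] at h2
  exact absurd h2 (lt_irrefl _)

/-- pigeonhole: some fibre of a map to a small set is cofinal -/
lemma Hyp.pigeonhole (H : Hyp D) {ι : Type} (hι : #ι ≤ ℵ₁) (f : W → ι) :
    ∃ i, ∀ b, ∃ γ, b ≤ γ ∧ f γ = i := by
  by_contra hc
  push Not at hc
  choose B hB using hc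
  obtain ⟨b, hb⟩ := H.bddW B hι
  exact hB (f b) b (hb (f b)).le rfl

/-- the restriction of an element of the line to `Iio ξ` -/
lemma exists_node_res (x : D.Line) (ξ : W) : ∃ α, α ≤ ξ ∧ D.Node α (res ξ x.fn) := by
  rcases le_total ξ x.lh with h | h
  · exact ⟨ξ, le_rfl, x.node.res h⟩
  · refine ⟨x.lh, h, ?_⟩
    have : res ξ x.fn = x.fn := by
      funext η
      rcases lt_or_ge η ξ with h1 | h1
      · exact res_of_lt _ h1
      · rw [res_of_le _ h1, x.node.eq_bot (h.trans h1)]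
    rw [this]
    exact x.node

/-- there is no cofinal family of pairwise coherent nodes -/
lemma Hyp.no_branch (H : Hyp D) (Γ : Set W) (hΓ : ∀ b, ∃ γ, b ≤ γ ∧ γ ∈ Γ) (x : W → D.Line)
    (hx : ∀ γ ∈ Γ, γ ≤ (x γ).lh)
    (hco : ∀ γ ∈ Γ, ∀ γ' ∈ Γ, ∀ η, η < γ → η < γ' → (x γ).fn η = (x γ').fn η) : False := by
  have h1 : ∀ η : W, ∃ γ, η < γ ∧ γ ∈ Γ := by
    intro η
    obtain ⟨d, hd, _, _⟩ := H.exists_gt_max η η η
    obtain ⟨γ, hγ, hγΓ⟩ := hΓ d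
    exact ⟨γ, hd.trans_le hγ, hγΓ⟩
  choose G hG1 hG2 using h1
  obtain ⟨u, hu⟩ := H.pigeonhole (mk_withBot_le (mk_U_le H.mkV.le)) (fun η => (x (G η)).fn η)
  have h2 : ¬ {η | (x (G η)).fn η = u}.Countable := by
    intro hc
    obtain ⟨b, hb⟩ := H.bddW (fun i : {η | (x (G η)).fn η = u} => i.1) (by
      have h3 : #{η | (x (G η)).fn η = u} ≤ ℵ₀ := (Cardinal.le_aleph0_iff_set_countable).2 hc
      exact h3.trans (Cardinal.aleph0_le_aleph 1))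
    obtain ⟨γ, hγ, hγ2⟩ := hu b
    exact absurd (hb ⟨γ, hγ2⟩) (not_lt.2 hγ)
  obtain ⟨b, hb⟩ := H.exists_uncountable_Iio h2
  apply hb
  refine ((x (G b)).node.countable_le u).mono ?_
  rintro η ⟨h3, h4⟩
  have h4' : η < b := h4
  refine ⟨(h4'.trans (hG1 b)).trans_le (hx _ (hG2 b)), ?_⟩
  have h5 := hco _ (hG2 η) _ (hG2 b) η (hG1 η) (h4'.trans (hG1 b))
  rw [← h5]
  exact le_of_eq h3

/-- continuity of monotone maps on the levels -/
lemma Hyp.exists_level (H : Hyp D) (φ : D.Line → D.Line) (hφ : StrictMono φ) (ξ : W) :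
    ∃ γ, ∀ x y : D.Line, γ ≤ x.lh → γ ≤ y.lh → (∀ η, η < γ → x.fn η = y.fn η) →
      ∀ η, η < ξ → (φ x).fn η = (φ y).fn η := by
  by_contra hcon
  push Not at hcon
  have h1 : ∀ γ : W, ∃ x y : D.Line, γ ≤ x.lh ∧ γ ≤ y.lh ∧ (∀ η, η < γ → x.fn η = y.fn η) ∧
      ∃ i, i < ξ ∧ (∀ j, j < i → (φ x).fn j = (φ y).fn j) ∧ (φ x).fn i < (φ y).fn i := by
    intro γ
    obtain ⟨x, y, hx, hy, hxy, η, hη, hne⟩ := hcon γ
    obtain ⟨i, hi1, hi2⟩ := exists_first_ne (s := (φ x).fn) (t := (φ y).fn)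
      (fun hc => hne (congrFun hc η))
    have hi3 : i ≤ η := not_lt.1 fun hc => hne (hi1 η hc)
    rcases lt_or_gt_of_ne hi2 with h | h
    · exact ⟨x, y, hx, hy, hxy, i, hi3.trans_lt hη, hi1, h⟩
    · exact ⟨y, x, hy, hx, fun η hη => (hxy η hη).symm, i, hi3.trans_lt hη,
        fun j hj => (hi1 j hj).symm, h⟩
  choose x y hx hy hxy i hi hi1 hi2 using h1
  let R : Type := {t : W → WithBot (U V) | ∃ α, α ≤ ξ ∧ D.Node α t}
  have hR : #R ≤ ℵ₁ := D.mk_nodes_le H.ch H.mkV.le ξ (H.mkW ξ)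
  obtain ⟨⟨u, u'⟩, hu⟩ := H.pigeonhole (mk_prod_le hR hR)
    (fun γ => ((⟨res ξ (φ (x γ)).fn, exists_node_res _ _⟩ : R),
      (⟨res ξ (φ (y γ)).fn, exists_node_res _ _⟩ : R)))
  let Γ : Set W := {γ | res ξ (φ (x γ)).fn = u.1 ∧ res ξ (φ (y γ)).fn = u'.1}
  have hΓ : ∀ b, ∃ γ, b ≤ γ ∧ γ ∈ Γ := by
    intro b
    obtain ⟨γ, h1, h2⟩ := hu b
    have h3 := Prod.ext_iff.1 h2
    exact ⟨γ, h1, Subtype.ext_iff.1 h3.1, Subtype.ext_iff.1 h3.2⟩
  have hval : ∀ γ ∈ Γ, ∀ γ' ∈ Γ, ∀ η, η < ξ → (φ (x γ)).fn η = (φ (x γ')).fn η := by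
    intro γ hγ γ' hγ' η hη
    rw [← res_of_lt (φ (x γ)).fn hη, ← res_of_lt (φ (x γ')).fn hη, hγ.1, hγ'.1]
  have hlt : ∀ γ ∈ Γ, ∀ γ' ∈ Γ, φ (x γ') < φ (y γ) := by
    intro γ hγ γ' hγ'
    rw [Line.lt_iff]
    refine ⟨i γ, fun j hj => ?_, ?_⟩
    · rw [hval γ' hγ' γ hγ j (hj.trans (hi γ))]
      exact hi1 γ j hj
    · rw [hval γ' hγ' γ hγ _ (hi γ)]
      exact hi2 γ
  refine H.no_branch Γ hΓ x (fun γ _ => hx γ) ?_
  have main : ∀ γ ∈ Γ, ∀ γ' ∈ Γ, ∀ a, a < γ → (∀ j, j < a → (x γ).fn j = (x γ').fn j) →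
      ¬ (x γ).fn a < (x γ').fn a := by
    intro γ hγ γ' hγ' a ha h1 h2
    have h3 : y γ < x γ' := by
      rw [Line.lt_iff]
      refine ⟨a, fun j hj => ?_, ?_⟩
      · rw [← hxy γ j (hj.trans ha)]
        exact h1 j hj
      · rw [← hxy γ a ha]
        exact h2
    exact absurd (hφ h3) (lt_asymm (hlt γ hγ γ' hγ'))
  intro γ hγ γ' hγ' η hη hη'
  by_contra hne
  obtain ⟨a, ha1, ha2⟩ := exists_first_ne (s := (x γ).fn) (t := (x γ').fn)
    (fun hc => hne (congrFun hc η))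
  have ha3 : a ≤ η := not_lt.1 fun hc => hne (ha1 η hc)
  rcases lt_or_gt_of_ne ha2 with h | h
  · exact main γ hγ γ' hγ' a (ha3.trans_lt hη) ha1 h
  · exact main γ' hγ' γ hγ a (ha3.trans_lt hη') (fun j hj => (ha1 j hj).symm) h

/-- long elements have long images -/
lemma Hyp.exists_length (H : Hyp D) (φ : D.Line → D.Line) (hφ : StrictMono φ) (ξ : W) :
    ∃ γ, ∀ x : D.Line, γ ≤ x.lh → ξ < (φ x).lh := by
  have h1 : #{x : D.Line | (φ x).lh ≤ ξ} ≤ ℵ₁ := by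
    refine le_trans ?_ (D.mk_line_le H.ch H.mkV.le ξ (H.mkW ξ))
    refine mk_le_of_injective (f := fun x : {x : D.Line | (φ x).lh ≤ ξ} =>
      (⟨φ x.1, x.2⟩ : {x : D.Line | x.lh ≤ ξ})) ?_
    intro x y hxy
    simp only [Subtype.mk.injEq] at hxy
    exact Subtype.ext (hφ.injective hxy)
  obtain ⟨b, hb⟩ := H.bddW (fun x : {x : D.Line | (φ x).lh ≤ ξ} => x.1.lh) h1
  refine ⟨b, fun x hx => ?_⟩
  by_contra hc
  exact absurd (hb ⟨x, not_lt.1 hc⟩) (not_lt.2 hx)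

end Dat

end Pool.Agent.Helper305_Countryman
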