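import Pool.Agent.Helper305_Countryman.D

set_option autoImplicit false
set_option linter.unusedSectionVars false
set_option linter.deprecated false

/-! The main argument: no strictly monotone map from the line into the set of fibres. -/

namespace Pool.Agent.Helper305_Countryman

open Set Cardinal

namespace Dat

variable {W V : Type} [LinearOrder W] [WellFoundedLT W] [LinearOrder V]

section Main

variable {D : Dat W V} (H : Hyp D) (φ : D.Line → D.Line) (F : W → W)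

/-- closure points of `F` -/
def Cl (F : W → W) (δ : W) : Prop := (∃ ξ, ξ < δ) ∧ ∀ ξ, ξ < δ → F ξ < δ

/-- the control function -/
structure Ctl (φ : D.Line → D.Line) (F : W → W) : Prop where
  lt : ∀ ξ, ξ < F ξ
  level : ∀ ξ, ∀ x y : D.Line, F ξ ≤ x.lh → F ξ ≤ y.lh → (∀ η, η < F ξ → x.fn η = y.fn η) →
      ∀ η, η < ξ → (φ x).fn η = (φ y).fn η
  length : ∀ ξ, ∀ x : D.Line, F ξ ≤ x.lh → ξ < (φ x).lh

include H in
lemma Hyp.exists_ctl (hφ : StrictMono φ) : ∃ F : W → W, Ctl φ F := by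
  choose γ₁ h1 using H.exists_level φ hφ
  choose γ₂ h2 using H.exists_length φ hφ
  choose F hF1 hF2 hF3 using fun ξ => H.exists_gt_max ξ (γ₁ ξ) (γ₂ ξ)
  refine ⟨F, ⟨hF1, fun ξ x y hx hy hxy => ?_, fun ξ x hx => ?_⟩⟩
  · exact h1 ξ x y ((hF2 ξ).le.trans hx) ((hF2 ξ).le.trans hy) fun η hη => hxy η (hη.trans (hF2 ξ))
  · exact h2 ξ x ((hF3 ξ).le.trans hx)

variable {φ F}

lemma Ctl.agree (C : Ctl φ F) {γ : W} (hγ : Cl F γ) {x y : D.Line} (hx : γ ≤ x.lh)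
    (hy : γ ≤ y.lh) (hxy : ∀ η, η < γ → x.fn η = y.fn η) :
    ∀ η, η < γ → (φ x).fn η = (φ y).fn η := by
  intro η hη
  have h1 : F η < γ := hγ.2 η hη
  have h2 : F (F η) < γ := hγ.2 _ h1
  exact C.level (F η) x y (h2.le.trans hx) (h2.le.trans hy)
    (fun j hj => hxy j (hj.trans h2)) η (C.lt η)

lemma Ctl.le_lh (C : Ctl φ F) {γ : W} (hγ : Cl F γ) {x : D.Line} (hx : γ ≤ x.lh) :
    γ ≤ (φ x).lh := by
  by_contra hc
  have h1 := hγ.2 _ (not_le.1 hc)
  exact absurd (C.length _ x (h1.le.trans hx)) (lt_irrefl _)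

include H in
lemma Hyp.exists_cl (F : W → W) (ξ : W) : ∃ δ, ξ < δ ∧ Cl F δ := by
  obtain ⟨δ, _, h2, h3⟩ := H.stat false (fun η => max (F η) ξ)
  obtain ⟨η, hη⟩ := h2.1
  refine ⟨δ, (le_max_right _ _).trans_lt (h3 η hη), h2.1, fun η hη => ?_⟩
  exact (le_max_left _ _).trans_lt (h3 η hη)

/-- `t` can be extended to all closure levels with the image kept above `j`. -/
def Good (φ : D.Line → D.Line) (F : W → W) (t : D.Line) (j : WithBot (U V)) : Prop :=
  ∀ δ, Cl F δ → t.lh ≤ δ → ∃ t' : D.Line, t'.lh = δ ∧ (∀ η, η < t.lh → t'.fn η = t.fn η) ∧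
    ∀ η, t.lh ≤ η → η < δ → j < (φ t').fn η

/-- one step of the construction -/
structure Step (φ : D.Line → D.Line) (F : W → W) (b : Bool) (t : D.Line) (j : WithBot (U V))
    (t' : D.Line) (j' : WithBot (U V)) (c : W) (v : U V) : Prop where
  hj : j' = v
  le_c : t.lh ≤ c
  c_lt : c < t'.lh
  cl : Cl F t'.lh
  ext : ∀ η, η < t.lh → t'.fn η = t.fn η
  val : (φ t').fn c = v
  lt_v : j < v
  col_v : col v = b
  recd : ∀ η, c < η → η < t'.lh → (v : WithBot (U V)) < (φ t').fn η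
  above : ∀ η, t.lh ≤ η → η < t'.lh → j < (φ t').fn η

include H in
lemma Hyp.exists_step (C : Ctl φ F) (hfib : ∀ x, ∃ δ, φ x = D.fib δ) (b : Bool) (t : D.Line)
    (j : WithBot (U V)) (hG : Good φ F t j) :
    ∃ t' j' c v, Good φ F t' j' ∧ Step φ F b t j t' j' c v := by
  classical
  -- witnesses of failure
  have h1 : ∀ (t' : D.Line) (j' : WithBot (U V)), ∃ β, ¬ Good φ F t' j' →
      Cl F β ∧ t'.lh ≤ β ∧ ¬ ∃ t'' : D.Line, t''.lh = β ∧
        (∀ η, η < t'.lh → t''.fn η = t'.fn η) ∧ ∀ η, t'.lh ≤ η → η < β → j' < (φ t'').fn η := by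
    intro t' j'
    by_cases hg : Good φ F t' j'
    · exact ⟨t'.lh, fun h => absurd hg h⟩
    · unfold Good at hg
      push Not at hg
      obtain ⟨β, hβ1, hβ2, hβ3⟩ := hg
      refine ⟨β, fun _ => ⟨hβ1, hβ2, ?_⟩⟩
      rintro ⟨t'', h1, h2, h3⟩
      obtain ⟨η, h4, h5, h6⟩ := hβ3 t'' h1 h2
      exact absurd (h3 η h4 h5) (not_lt.2 h6)
  choose β hβ using h1
  have h2 : ∀ ζ : W, ∃ G, ∀ t' : D.Line, t'.lh ≤ ζ → ∀ j', β t' j' < G := by
    intro ζ
    obtain ⟨G, hG⟩ := H.bddW (fun p : {x : D.Line | x.lh ≤ ζ} × WithBot (U V) => β p.1.1 p.2)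
      (mk_prod_le (D.mk_line_le H.ch H.mkV.le ζ (H.mkW ζ)) (mk_withBot_le (mk_U_le H.mkV.le)))
    exact ⟨G, fun t' ht' j' => hG (⟨t', ht'⟩, j')⟩
  choose G hGb using h2
  choose N hN1 hN2 using H.exists_cl F
  obtain ⟨η, hηb, hηU, hηf⟩ := H.stat b (fun ξ => max (max (F ξ) (G ξ)) (max (N ξ) t.lh))
  have hηF : ∀ ξ, ξ < η → F ξ < η := fun ξ hξ =>
    ((le_max_left _ _).trans (le_max_left _ _)).trans_lt (hηf ξ hξ)
  have hηG : ∀ ξ, ξ < η → G ξ < η := fun ξ hξ =>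
    ((le_max_right _ _).trans (le_max_left _ _)).trans_lt (hηf ξ hξ)
  have hηN : ∀ ξ, ξ < η → N ξ < η := fun ξ hξ =>
    ((le_max_left _ _).trans (le_max_right _ _)).trans_lt (hηf ξ hξ)
  have hηt : t.lh < η := by
    obtain ⟨ξ, hξ⟩ := hηU.1
    exact ((le_max_right _ _).trans (le_max_right _ _)).trans_lt (hηf ξ hξ)
  have hηC : Cl F η := ⟨hηU.1, hηF⟩
  obtain ⟨ts, hts1, hts2, hts3⟩ := hG η hηC hηt.le
  obtain ⟨δ, hδ⟩ := hfib ts
  have hηδ : η ≤ δ := by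
    have h3 := C.le_lh hηC hts1.ge
    rw [hδ, D.lh_fib] at h3
    exact h3
  obtain ⟨b₀, hb₀, hb₀'⟩ := hηU.countable (((D.node_e η).ctbl' hηδ).insert t.lh) (by
    rintro a (rfl | ⟨ha, _⟩)
    · exact hηt
    · exact ha)
  have hagree : ∀ ξ, b₀ ≤ ξ → ξ < η → (φ ts).fn ξ = D.e ξ η := by
    intro ξ h3 h4
    rw [hδ, D.fn_fib]
    by_contra hne
    exact absurd (hb₀' ξ (Or.inr ⟨h4, fun h5 => hne h5.symm⟩)) (not_lt.2 h3)
  obtain ⟨c, hc1, hc2, v, hv1, hv2, hv3, hv4⟩ := D.exists_record hηU b₀ hb₀ j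
  have hζη : N c < η := hηN c hc2
  have hζts : N c ≤ ts.lh := by rw [hts1]; exact hζη.le
  let t' : D.Line := ts.cut (N c) hζts
  have ht'lh : t'.lh = N c := ts.lh_cut _ _
  have ht'fn : ∀ ξ, ξ < N c → t'.fn ξ = ts.fn ξ := fun ξ hξ => ts.fn_cut _ _ hξ
  have htN : t.lh < N c := ((hb₀' _ (Or.inl rfl)).trans hc1).trans (hN1 c)
  have hφ' : ∀ ξ, ξ < N c → (φ t').fn ξ = (φ ts).fn ξ :=
    C.agree (hN2 c) ht'lh.ge hζts ht'fn
  refine ⟨t', v, c, v, ?_, ⟨rfl, ((hb₀' _ (Or.inl rfl)).trans hc1).le, ?_, ?_, ?_, ?_, hv2,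
    hv3.trans hηb, ?_, ?_⟩⟩
  · -- goodness
    by_contra hbad
    obtain ⟨h3, h4, h5⟩ := hβ t' v hbad
    rw [ht'lh] at h4 h5
    have h6 : β t' v < η := (hGb (N c) t' ht'lh.le v).trans (hηG _ hζη)
    have h7 : β t' v ≤ ts.lh := by rw [hts1]; exact h6.le
    refine h5 ⟨ts.cut (β t' v) h7, ts.lh_cut _ _, fun ξ hξ => ?_, fun ξ hξ1 hξ2 => ?_⟩
    · rw [ts.fn_cut _ _ (hξ.trans_le h4), ht'fn ξ hξ]
    · have h8 : (φ (ts.cut (β t' v) h7)).fn ξ = (φ ts).fn ξ :=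
        C.agree h3 (ts.lh_cut _ _).ge h7 (fun a ha => ts.fn_cut _ _ ha) ξ hξ2
      have h9 : ξ < η := hξ2.trans h6
      have h10 : c < ξ := (hN1 c).trans_le hξ1
      rw [h8, hagree ξ (hc1.trans h10).le h9, ← hv1]
      exact hv4 ξ h10 h9
  · rw [ht'lh]
    exact hN1 c
  · rw [ht'lh]
    exact hN2 c
  · intro ξ hξ
    rw [ht'fn ξ (hξ.trans htN)]
    exact hts2 ξ hξ
  · rw [hφ' c (hN1 c), hagree c hc1.le hc2, hv1]
  · intro ξ h3 h4
    rw [ht'lh] at h4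
    rw [hφ' ξ h4, hagree ξ (hc1.trans h3).le (h4.trans hζη), ← hv1]
    exact hv4 ξ h3 (h4.trans hζη)
  · intro ξ h3 h4
    rw [ht'lh] at h4
    rw [hφ' ξ h4]
    exact hts3 ξ h3 (h4.trans hζη)

include H in
/-- The line does not embed into the set of fibres. -/
theorem Hyp.no_embedding (φ : D.Line → D.Line) (hφ : StrictMono φ)
    (hfib : ∀ x, ∃ δ, φ x = D.fib δ) : False := by
  classical
  obtain ⟨F, C⟩ := H.exists_ctl φ hφ
  -- the starting point
  obtain ⟨δ₀, _, _⟩ := H.stat false id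
  let o : W := wellFounded_lt.min (univ : Set W) ⟨δ₀, trivial⟩
  have ho : ∀ η, ¬ η < o := fun η => wellFounded_lt.not_lt_min (univ : Set W) (mem_univ η)
  have hstart : Good φ F (D.fib o) ⊥ := by
    intro δ hδ _
    refine ⟨D.fib δ, D.lh_fib δ, fun η hη => ?_, fun η _ h2 => ?_⟩
    · rw [D.lh_fib] at hη
      exact absurd hη (ho η)
    · have h3 : δ ≤ (φ (D.fib δ)).lh := C.le_lh hδ (D.lh_fib δ).ge
      exact bot_lt_iff_ne_bot.2 ((φ (D.fib δ)).node.ne_bot (h2.trans_le h3))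
  let St : Type := {p : D.Line × WithBot (U V) // Good φ F p.1 p.2}
  have hstep : ∀ (s : St) (b : Bool), ∃ (s' : St) (c : W) (v : U V),
      Step φ F b s.1.1 s.1.2 s'.1.1 s'.1.2 c v := by
    intro s b
    obtain ⟨t', j', c, v, h1, h2⟩ := H.exists_step C hfib b s.1.1 s.1.2 s.2
    exact ⟨⟨(t', j'), h1⟩, c, v, h2⟩
  choose nx cc vv hnx using hstep
  let sq : ℕ → St := fun n => Nat.rec ⟨(D.fib o, ⊥), hstart⟩ (fun n s => nx s n.bodd) n
  have hsq : ∀ n, Step φ F n.bodd (sq n).1.1 (sq n).1.2 (sq (n + 1)).1.1 (sq (n + 1)).1.2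
      (cc (sq n) n.bodd) (vv (sq n) n.bodd) := fun n => hnx (sq n) n.bodd
  let t : ℕ → D.Line := fun n => (sq (n + 1)).1.1
  let l : ℕ → W := fun n => (t n).lh
  let c : ℕ → W := fun n => cc (sq n) n.bodd
  let v : ℕ → U V := fun n => vv (sq n) n.bodd
  have hc1 : ∀ n, c n < l n := fun n => (hsq n).c_lt
  have hc2 : ∀ n, l n ≤ c (n + 1) := fun n => (hsq (n + 1)).le_c
  have hl : StrictMono l := strictMono_nat_of_lt_succ fun n => (hc2 n).trans_lt (hc1 (n + 1))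
  have hc : StrictMono c := strictMono_nat_of_lt_succ fun n => (hc1 n).trans_le (hc2 n)
  have hcl : ∀ n, Cl F (l n) := fun n => (hsq n).cl
  have hval : ∀ n, (φ (t n)).fn (c n) = v n := fun n => (hsq n).val
  have hcol : ∀ n, col (v n) = n.bodd := fun n => (hsq n).col_v
  have hv : ∀ n, v n < v (n + 1) := by
    intro n
    have h1 := (hsq (n + 1)).lt_v
    rw [(hsq n).hj] at h1
    exact WithBot.coe_lt_coe.1 h1
  have hvm : StrictMono v := strictMono_nat_of_lt_succ hv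
  have hab : ∀ n η, l n ≤ η → η < l (n + 1) → (v n : WithBot (U V)) < (φ (t (n + 1))).fn η := by
    intro n η h1 h2
    have h3 := (hsq (n + 1)).above η h1 h2
    rw [(hsq n).hj] at h3
    exact h3
  have hrec : ∀ n η, c n < η → η < l n → (v n : WithBot (U V)) < (φ (t n)).fn η :=
    fun n => (hsq n).recd
  have hext : ∀ n ξ, ξ < l n → (t (n + 1)).fn ξ = (t n).fn ξ := fun n => (hsq (n + 1)).ext
  -- the limit
  obtain ⟨B, hB⟩ := H.bddW l (by
    rw [Cardinal.mk_nat]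
    exact Cardinal.aleph0_le_aleph 1)
  obtain ⟨γ, hγ1, hγ2⟩ := exists_isLUB_range l B (fun n => (hB n).le)
  obtain ⟨z, hz1, hz2⟩ := exists_union hl (fun n => (t n).node) hext hγ1 hγ2
  have hγcl : Cl F γ := by
    refine ⟨⟨c 0, (hc1 0).trans_le (hγ1 0)⟩, fun ξ hξ => ?_⟩
    obtain ⟨n, hn⟩ := hγ2 ξ hξ
    exact ((hcl n).2 ξ hn).trans_le (hγ1 n)
  let x : D.Line := mkL hz1
  have hxlh : x.lh = γ := lh_mkL hz1
  obtain ⟨δ, hδ⟩ := hfib x
  have hag : ∀ n η, η < l n → D.e η δ = (φ (t n)).fn η := by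
    intro n η hη
    have h1 : (φ x).fn η = (φ (t n)).fn η :=
      C.agree (hcl n) ((hγ1 n).trans hxlh.ge) le_rfl (fun a ha => hz2 n a ha) η hη
    rw [← h1, hδ, D.fn_fib]
  have hbig : ∀ n m η, c n < η → η < l m → (v n : WithBot (U V)) < D.e η δ := by
    intro n m
    induction m with
    | zero =>
      intro η h1 h2
      have h3 : η < l n := h2.trans_le (hl.monotone (Nat.zero_le n))
      rw [hag n η h3]
      exact hrec n η h1 h3
    | succ m ih =>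
      intro η h1 h2
      rcases lt_or_ge η (l m) with h3 | h3
      · exact ih η h1 h3
      rcases lt_or_ge m n with h4 | h4
      · have h5 : η < l n := h2.trans_le (hl.monotone h4)
        rw [hag n η h5]
        exact hrec n η h1 h5
      · rw [hag (m + 1) η h2]
        refine lt_of_le_of_lt ?_ (hab m η h3 h2)
        exact WithBot.coe_le_coe.2 (hvm.monotone h4)
  have hcδ : ∀ n, D.e (c n) δ = (v n : WithBot (U V)) := by
    intro n
    rw [hag n _ (hc1 n), hval n]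
  refine D.no_alternating δ c v hc (fun n => ?_) hcδ (fun n η h1 h2 => ?_) (fun n => ?_)
  · by_contra hcon
    have h1 := hcδ n
    rw [D.e_of_le (not_lt.1 hcon)] at h1
    exact absurd h1 (WithBot.bot_ne_coe)
  · obtain ⟨m, hm⟩ := h2
    rw [hcδ n]
    exact hbig n m η h1 (hm.trans_lt (hc1 m))
  · rw [hcol (n + 1), hcol n, Nat.bodd_succ]
    simp

end Main

end Dat

end Pool.Agent.Helper305_Countryman
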