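import Pool.Agent.Helper305_Countryman.E

set_option autoImplicit false
set_option linter.unusedSectionVars false
set_option linter.deprecated false

/-! Existence of the data: two disjoint stationary sets of points of uncountable cofinality. -/

namespace Pool.Agent.Helper305_Countryman

open Set Cardinal

section Stat

variable {W V : Type} [LinearOrder W] [WellFoundedLT W] [LinearOrder V] [WellFoundedLT V]

/-- every function has a closure point in `A` -/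
def Stat (A : Set W) : Prop := ∀ f : W → W, ∃ δ, δ ∈ A ∧ ∀ ξ, ξ < δ → f ξ < δ

lemma Stat.mono {A B : Set W} (h : Stat A) (hAB : A ⊆ B) : Stat B := fun f =>
  let ⟨δ, h1, h2⟩ := h f
  ⟨δ, hAB h1, h2⟩

/-- Definition by well-founded recursion with choices. -/
lemma exists_rec' {α : Type} (P : (i : V) → (Iio i → α) → α → Prop) (h : ∀ i f, ∃ x, P i f x) :
    ∃ F : V → α, ∀ i, P i (fun j => F j.1) (F i) := by
  classical
  choose c hc using h
  let F : V → α := (wellFounded_lt (α := V)).fix (fun i f => c i (fun j => f j.1 j.2))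
  refine ⟨F, fun i => ?_⟩
  have : F i = c i (fun j => F j.1) := (wellFounded_lt (α := V)).fix_eq _ i
  rw [this]
  exact hc i _

/-- the points of uncountable cofinality are stationary -/
lemma stat_UC [Nonempty V] (hV : #V ≤ ℵ₁) (bddV : ∀ s : ℕ → V, ∃ b, ∀ n, s n < b)
    (mkW : ∀ ζ : W, #(Iic ζ) ≤ ℵ₁)
    (bddW : ∀ {ι : Type} (f : ι → W), #ι ≤ ℵ₁ → ∃ b, ∀ i, f i < b) :
    Stat {δ : W | Dat.UC δ} := by
  intro f
  have h1 : ∀ ζ : W, ∃ F', ∀ η, η ≤ ζ → max (f η) η < F' := by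
    intro ζ
    obtain ⟨b, hb⟩ := bddW (fun η : Iic ζ => max (f η.1) η.1) (mkW ζ)
    exact ⟨b, fun η hη => hb (⟨η, hη⟩ : Iic ζ)⟩
  choose F' hF' using h1
  obtain ⟨s, hs⟩ := exists_rec' (V := V) (α := W) (fun i g x => ∀ j : Iio i, F' (g j) < x) (by
    intro i g
    exact bddW (fun j => F' (g j)) ((mk_set_le _).trans hV))
  have hs1 : ∀ i j, j < i → F' (s j) < s i := fun i j hij => hs i ⟨j, hij⟩
  have hs2 : ∀ i j, j < i → s j < s i := fun i j hij =>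
    ((le_max_right _ _).trans_lt (hF' (s j) (s j) le_rfl)).trans (hs1 i j hij)
  obtain ⟨b, hb⟩ := bddW s hV
  have hne : {b | ∀ i, s i < b}.Nonempty := ⟨b, hb⟩
  let δ : W := wellFounded_lt.min _ hne
  have hδ1 : ∀ i, s i < δ := wellFounded_lt.min_mem _ hne
  have hδ2 : ∀ ξ, ξ < δ → ∃ i, ξ ≤ s i := by
    intro ξ hξ
    by_contra hc
    push Not at hc
    exact wellFounded_lt.not_lt_min {b | ∀ i, s i < b} hc hξ
  have hgt : ∀ i : V, ∃ j, i < j := by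
    intro i
    obtain ⟨b, hb⟩ := bddV (fun _ => i)
    exact ⟨b, hb 0⟩
  obtain ⟨v0⟩ := ‹Nonempty V›
  refine ⟨δ, ⟨⟨s v0, hδ1 v0⟩, fun r hr => ?_⟩, fun ξ hξ => ?_⟩
  · choose p hp using fun n => hδ2 (r n) (hr n)
    obtain ⟨q, hq⟩ := bddV p
    exact ⟨s q, hδ1 q, fun n => (hp n).trans_lt (hs2 q (p n) (hq n))⟩
  · obtain ⟨i, hi⟩ := hδ2 ξ hξ
    obtain ⟨j, hj⟩ := hgt i
    calc f ξ ≤ max (f ξ) ξ := le_max_left _ _
      _ < F' (s i) := hF' (s i) ξ hi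
      _ < s j := hs1 j i hj
      _ < δ := hδ1 j

/-- Ulam's splitting of a stationary set into two disjoint ones. -/
lemma exists_split (S : Set W) (hS : Stat S) (hV : #V ≤ ℵ₁) (hW : ℵ₁ < #W)
    (bddW : ∀ {ι : Type} (f : ι → W), #ι ≤ ℵ₁ → ∃ b, ∀ i, f i < b)
    (g : W → V → W) (hg : ∀ β ξ, ξ < β → ∃ i, g β i = ξ)
    (hSne : ∀ δ ∈ S, ∃ ξ, ξ < δ) :
    ∃ A B : Set W, A ⊆ S ∧ B ⊆ S ∧ Disjoint A B ∧ Stat A ∧ Stat B := by
  have hg' : ∀ β ξ, ∃ i, ξ < β → g β i = ξ := by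
    intro β ξ
    by_cases h : ξ < β
    · obtain ⟨i, hi⟩ := hg β ξ h
      exact ⟨i, fun _ => hi⟩
    · have hne : Nonempty V := by
        obtain ⟨δ, hδ, _⟩ := hS id
        obtain ⟨ξ, hξ⟩ := hSne δ hδ
        obtain ⟨i, _⟩ := hg δ ξ hξ
        exact ⟨i⟩
      exact ⟨hne.some, fun h' => absurd h' h⟩
  choose p hp using hg'
  let A : W → V → Set W := fun ξ i => {δ | δ ∈ S ∧ ξ < δ ∧ p δ ξ = i}
  have h1 : ∀ ξ, ∃ i, Stat (A ξ i) := by
    intro ξ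
    by_contra hc
    push Not at hc
    unfold Stat at hc
    push Not at hc
    choose f hf using hc
    choose F hF using fun η => bddW (fun i => f i η) hV
    obtain ⟨δ, hδS, hδ⟩ := hS (fun η => max (F η) ξ)
    obtain ⟨η₀, hη₀⟩ := hSne δ hδS
    have hξ : ξ < δ := (le_max_right _ _).trans_lt (hδ η₀ hη₀)
    obtain ⟨η, hη1, hη2⟩ := hf (p δ ξ) δ ⟨hδS, hξ, rfl⟩
    have h2 := (le_max_left _ _).trans_lt (hδ η hη1)
    exact absurd (hη2.trans_lt ((hF η (p δ ξ)).trans h2)) (lt_irrefl _)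
  choose i hi using h1
  have hninj : ¬ Function.Injective i := by
    intro hinj
    have := (mk_le_of_injective hinj).trans hV
    exact absurd this (not_le.2 hW)
  unfold Function.Injective at hninj
  push Not at hninj
  obtain ⟨ξ, ξ', h2, h3⟩ := hninj
  refine ⟨A ξ (i ξ), A ξ' (i ξ'), fun δ h => h.1, fun δ h => h.1, ?_, hi ξ, hi ξ'⟩
  rw [Set.disjoint_left]
  rintro δ ⟨_, h4, h5⟩ ⟨_, h6, h7⟩
  apply h3
  rw [← hp δ ξ h4, ← hp δ ξ' h6, h5, h7, h2]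

end Stat

section Exists

variable {W V : Type} [LinearOrder W] [WellFoundedLT W] [LinearOrder V] [WellFoundedLT V]

/-- existence of the data -/
theorem exists_dat [Nonempty V] (hCH : (𝔠 : Cardinal.{0}) = ℵ₁) (hV : #V = ℵ₁)
    (ctblV : ∀ v : V, (Iic v).Countable)
    (bddV : ∀ s : ℕ → V, ∃ b, ∀ n, s n < b)
    (hW : ℵ₁ < #W) (mkW : ∀ ζ : W, #(Iic ζ) ≤ ℵ₁)
    (bddW : ∀ {ι : Type} (f : ι → W), #ι ≤ ℵ₁ → ∃ b, ∀ i, f i < b) :
    ∃ D : Dat W V, Dat.Hyp D := by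
  classical
  have h1 : ∀ β : W, ∃ g : V → W, (∀ ξ, ξ < β → ∀ i, g i < β) ∧ ∀ ξ, ξ < β → ∃ i, g i = ξ := by
    intro β
    by_cases hne : ∃ ξ, ξ < β
    · obtain ⟨ξ₀, hξ₀⟩ := hne
      have h2 : #(Iio β) ≤ #V := by
        rw [hV]
        exact (mk_le_mk_of_subset Iio_subset_Iic_self).trans (mkW β)
      obtain ⟨emb⟩ := h2
      have : Nonempty (Iio β) := ⟨⟨ξ₀, hξ₀⟩⟩
      have h3 := Function.invFun_surjective emb.injective
      refine ⟨fun i => (Function.invFun emb i).1, fun _ _ i => (Function.invFun emb i).2,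
        fun ξ hξ => ?_⟩
      obtain ⟨i, hi⟩ := h3 ⟨ξ, hξ⟩
      exact ⟨i, by simp only [hi]⟩
    · exact ⟨fun _ => β, fun ξ hξ => absurd ⟨ξ, hξ⟩ hne, fun ξ hξ => absurd ⟨ξ, hξ⟩ hne⟩
  choose g hg1 hg2 using h1
  have h2 : ∀ β ξ : W, ∃ i : V, ξ < β → ξ ≤ g β i ∧ ∀ j, j < i → g β j < ξ := by
    intro β ξ
    by_cases h : ξ < β
    · obtain ⟨i, hi⟩ := hg2 β ξ h
      have hne : {i | ξ ≤ g β i}.Nonempty := ⟨i, hi.ge⟩
      refine ⟨wellFounded_lt.min _ hne, fun _ => ⟨wellFounded_lt.min_mem _ hne, fun j hj => ?_⟩⟩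
      exact not_le.1 fun hc => wellFounded_lt.not_lt_min {i | ξ ≤ g β i} hc hj
    · obtain ⟨v⟩ := ‹Nonempty V›
      exact ⟨v, fun h' => absurd h' h⟩
  choose m hm using h2
  obtain ⟨A, B, hA, hB, hAB, hA2, hB2⟩ := exists_split {δ : W | Dat.UC δ}
    (stat_UC hV.le bddV mkW bddW) hV.le hW bddW g hg2 (fun δ hδ => hδ.1)
  refine ⟨⟨g, m, fun δ => decide (δ ∈ A), hg1, fun β ξ h => (hm β ξ h).1,
    fun β ξ h => (hm β ξ h).2, ctblV⟩, ⟨hCH, hV, mkW, bddW, ?_⟩⟩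
  intro b f
  cases b with
  | true =>
    obtain ⟨δ, h3, h4⟩ := hA2 f
    exact ⟨δ, by simpa using h3, hA h3, h4⟩
  | false =>
    obtain ⟨δ, h3, h4⟩ := hB2 f
    exact ⟨δ, by simpa using Set.disjoint_right.1 hAB h3, hB h3, h4⟩

end Exists

end Pool.Agent.Helper305_Countryman
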