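import Pool.Agent.Helper305_Countryman.F

set_option autoImplicit false
set_option linter.unusedSectionVars false
set_option linter.deprecated false

/-! Instantiation at the initial ordinals of cardinality `ℵ₁` and its successor. -/

namespace Pool.Agent.Helper305_Countryman

open Set Cardinal

universe u

lemma cof_toType_eq {κ : Cardinal.{u}} (hκ : κ.IsRegular) : Order.cof κ.ord.ToType = κ := by
  rw [Ordinal.cof_toType, hκ.cof_ord]

/-- Fewer than `κ` points are bounded. -/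
lemma bdd_of_lt {κ : Cardinal.{u}} (hκ : κ.IsRegular) {ι : Type u} (g : ι → κ.ord.ToType)
    (h : #ι < κ) : ∃ b, ∀ i, g i < b := by
  have hnc : ¬ IsCofinal (range g) := by
    intro hcof
    have h1 := Order.cof_le hcof
    rw [cof_toType_eq hκ] at h1
    exact absurd (h1.trans_lt (mk_range_le.trans_lt h)) (lt_irrefl _)
  obtain ⟨x, hx⟩ := not_isCofinal_iff.1 hnc
  exact ⟨x, fun i => hx _ ⟨i, rfl⟩⟩

lemma mk_Iic_lt {κ : Cardinal.{u}} (hκ : κ.IsRegular) (a : κ.ord.ToType) : #(Iic a) < κ := by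
  obtain ⟨b, hb⟩ := bdd_of_lt hκ (fun _ : PUnit.{u+1} => a)
    (by simpa using one_lt_aleph0.trans_le hκ.aleph0_le)
  have h1 : Iic a ⊆ Iio b := fun x hx => lt_of_le_of_lt hx (hb ⟨⟩)
  exact (mk_le_mk_of_subset h1).trans_lt (mk_Iio_toType_ord_lt b)

/-- The main theorem, abstractly. -/
theorem main (hCH : (𝔠 : Cardinal.{0}) = ℵ₁) :
    ∃ (L : Type) (_ : LinearOrder L), ℵ₁ < #L ∧
      (∃ (ι : Type) (C : ι → Set (L × L)), #ι = ℵ₁ ∧
        (∀ i, IsChain (· ≤ ·) (C i)) ∧ ⋃ i, C i = Set.univ) ∧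
      ∃ X : Set L, ℵ₁ < #X ∧ ∀ φ : L → L, StrictMono φ → ¬ ∀ x, φ x ∈ X := by
  have hr1 : (ℵ₁ : Cardinal.{0}).IsRegular := isRegular_aleph_one
  have hr2 : (Order.succ (ℵ₁ : Cardinal.{0})).IsRegular := isRegular_succ (aleph0_le_aleph 1)
  let V : Type := (ℵ₁ : Cardinal.{0}).ord.ToType
  let W : Type := (Order.succ (ℵ₁ : Cardinal.{0})).ord.ToType
  have hV : #V = ℵ₁ := mk_ord_toType _
  have hW : ℵ₁ < #W := by
    have : #W = Order.succ (ℵ₁ : Cardinal.{0}) := mk_ord_toType _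
    rw [this]
    exact Order.lt_succ _
  have hVne : Nonempty V := by
    rw [← mk_ne_zero_iff, hV]
    exact hr1.pos.ne'
  have ctblV : ∀ v : V, (Iic v).Countable := fun v =>
    (countable_iff_lt_aleph_one _).2 (mk_Iic_lt hr1 v)
  have bddV : ∀ s : ℕ → V, ∃ b, ∀ n, s n < b := fun s =>
    bdd_of_lt hr1 s (by rw [mk_nat]; exact aleph0_lt_aleph_one)
  have mkW : ∀ ζ : W, #(Iic ζ) ≤ ℵ₁ := fun ζ => Order.lt_succ_iff.1 (mk_Iic_lt hr2 ζ)
  have bddW : ∀ {ι : Type} (f : ι → W), #ι ≤ ℵ₁ → ∃ b, ∀ i, f i < b := fun f h =>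
    bdd_of_lt hr2 f (Order.lt_succ_iff.2 h)
  obtain ⟨D, H⟩ := exists_dat (W := W) (V := V) hCH hV ctblV bddV hW mkW bddW
  refine ⟨D.Line, inferInstance, ?_, D.countryman hCH hV bddV, range D.fib, ?_, ?_⟩
  · exact hW.trans_le (mk_le_of_injective D.fib_injective)
  · rw [mk_range_eq _ D.fib_injective]
    exact hW
  · intro φ hφ hX
    exact H.no_embedding φ hφ (fun x => by
      obtain ⟨δ, hδ⟩ := hX x
      exact ⟨δ, hδ.symm⟩)

end Pool.Agent.Helper305_Countryman
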